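import Pool.Agent.ASO.StmtsH
import Pool.Agent.Helper88_AT8.Dor
import Pool.Agent.Helper25_K9.PRG
import Pool.Agent.Helper20_ATZ.ONE

/-!
# Squad ASO, row HFCE
-/

open scoped BigOperators

set_option linter.unusedSectionVars false

noncomputable section

namespace Pool.Agent.PP.SO.H25

open Pool.Agent.Helper51_AWC Pool.Agent.Helper79_WRA Pool.Agent.PP Pool.Agent.PP.KF
open Pool.Agent.PP.K9 Pool.Agent.PP.K9.H97 Pool.Agent.PP.H75 Pool.Agent.PP.T3
open Pool.Agent.PP.SO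

attribute [local instance] Ideal.Quotient.field

section tools

variable {V₀ G : Type} [CommGroup V₀] [Group G] {M : Ideal (integralClosure ℤ ℂ)} [M.IsMaximal]

theorem C_zp (B : Bk (FF M) V₀ G) (c : V₀) : B.C (⊥ ⊔ Subgroup.zpowers c) = Cu (B.i c) := by
  unfold Bk.C
  rw [bot_sup_eq, MonoidHom.map_zpowers]
  ext x
  rw [Subgroup.mem_centralizer_iff, Subgroup.mem_centralizer_singleton_iff]
  constructor
  · intro h
    exact (h (B.i c) (Subgroup.mem_zpowers _)).symm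
  · intro h y hy
    obtain ⟨n, rfl⟩ := Subgroup.mem_zpowers_iff.1 hy
    have hc : Commute x (B.i c) := h
    exact ((hc.zpow_right n).eq).symm

theorem mem_C_bot (B : Bk (FF M) V₀ G) (x : G) : x ∈ B.C ⊥ := by
  unfold Bk.C
  rw [Subgroup.map_bot, Subgroup.mem_centralizer_iff]
  intro y hy
  have hy' : y = 1 := hy
  rw [hy', one_mul, mul_one]

theorem bh_eq (B : Bk (FF M) V₀ G) (W : Subgroup V₀) (X : Subgroup G) (h : B.C W = X) :
    bh B W = PP.ext0 X (eh M (fun t : X => B.b W t)) := by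
  subst h
  rfl

theorem lc_of {ℓ : ℕ} {E₀ : Subgroup (MulAut V₀)} {B : Bk (FF M) V₀ G} (hB : Sb ℓ M E₀ B)
    (c : V₀) : Lc B.e B.i.range B.g (B.i c) (B.b (⊥ ⊔ Subgroup.zpowers c)) := by
  have h := hB.lb (⊥ ⊔ Subgroup.zpowers c)
  have hC : Subgroup.centralizer
      (((⊥ ⊔ Subgroup.zpowers c).map B.i : Subgroup G) : Set G) = Cu (B.i c) := C_zp B c
  have key : ∀ X : Subgroup G, Subgroup.centralizer
      (((⊥ ⊔ Subgroup.zpowers c).map B.i : Subgroup G) : Set G) = X →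
      Bx X (B.b (⊥ ⊔ Subgroup.zpowers c)) ∧
      mulF (fun t : X => B.e t) (fun t : X => B.b (⊥ ⊔ Subgroup.zpowers c) t) =
        fun t : X => B.b (⊥ ⊔ Subgroup.zpowers c) t := by
    rintro X rfl
    exact ⟨h.blk, h.und⟩
  exact ⟨(key _ hC).1, (key _ hC).2, h.gam⟩

theorem ext0_in {X : Subgroup G} {f : X → ℂ} {x : G} (h : x ∈ X) : PP.ext0 X f x = f ⟨x, h⟩ := by
  unfold PP.ext0
  rw [dif_pos h]

theorem ext0_out {X : Subgroup G} {f : X → ℂ} {x : G} (h : x ∉ X) : PP.ext0 X f x = 0 := by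
  unfold PP.ext0
  rw [dif_neg h]

theorem bh_conj [Finite G] (B : Bk (FF M) V₀ G) {c c' : V₀} {t : G}
    (ht : t * B.i c * t⁻¹ = B.i c')
    (hcl : IsCl (fun s : Cu (B.i c) => B.b (⊥ ⊔ Subgroup.zpowers c) s))
    (hb : B.b (⊥ ⊔ Subgroup.zpowers c') = cj t (B.b (⊥ ⊔ Subgroup.zpowers c))) (x : G) :
    bh B (⊥ ⊔ Subgroup.zpowers c') (t * x * t⁻¹) = bh B (⊥ ⊔ Subgroup.zpowers c) x := by
  rw [bh_eq B _ _ (C_zp B c'), bh_eq B _ _ (C_zp B c)]
  by_cases hx : x ∈ Cu (B.i c)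
  · have hx' : t * x * t⁻¹ ∈ Cu (B.i c') := (T3.H62.cjE ht ⟨x, hx⟩).2
    rw [ext0_in hx, ext0_in hx', ← T3.H62.eh_equiv (T3.H62.cjE ht) hcl ⟨x, hx⟩]
    have h2 : (fun y : Cu (B.i c') => B.b (⊥ ⊔ Subgroup.zpowers c')
        (y : G)) = fun y : Cu (B.i c') => B.b (⊥ ⊔ Subgroup.zpowers c)
          (((T3.H62.cjE ht).symm y : Cu (B.i c)) : G) := by
      funext y
      rw [hb]
      rfl
    rw [h2]
    rfl
  · have hx' : t * x * t⁻¹ ∉ Cu (B.i c') := by
      intro h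
      apply hx
      have h1 := ((T3.H62.cjE ht).symm ⟨_, h⟩).2
      have h2 : (((T3.H62.cjE ht).symm ⟨_, h⟩ : Cu (B.i c)) : G) = x := by
        change t⁻¹ * (t * x * t⁻¹) * t = x
        group
      rw [h2] at h1
      exact h1
    rw [ext0_out hx, ext0_out hx']

end tools

/-- HFCE -/
theorem hfce (loc : T3.LocStmt) : HFceStmt := by
  intro ℓ _ M _ hM V₀ _ _ E₀ G _ _ B hB
  classical
  have hF : GoodF ℓ (FF M) := H50.fld ℓ Fact.out M hM
  constructor
  · intro c σ hσ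
    obtain ⟨t, ht, hti⟩ := hB.sur σ hσ
    have h1 := lc_of hB c
    have h2 := lc_of hB (σ c)
    have h3 : Lc B.e B.i.range B.g (B.i (σ c)) (cj t (B.b (⊥ ⊔ Subgroup.zpowers c))) :=
      T8.H88.lc_cj hB.ld ht (hti c) h1
    have h4 := (loc ℓ (FF M) hF G B.e B.i.range B.g hB.ld (B.i (σ c)) ⟨_, rfl⟩).2 _ _ h2 h3
    have hcl : IsCl (fun s : Cu (B.i c) => B.b (⊥ ⊔ Subgroup.zpowers c) s) := h1.blk.blk.1.1
    have hcj := bh_conj B (hti c) hcl h4
    funext g
    unfold fc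
    have hcard : Nat.card (B.C (⊥ ⊔ Subgroup.zpowers (σ c))) =
        Nat.card (B.C (⊥ ⊔ Subgroup.zpowers c)) := by
      rw [C_zp, C_zp]
      exact (Nat.card_congr (T3.H62.cjE (hti c)).toEquiv).symm
    rw [hcard]
    congr 1
    symm
    rw [← finsum_comp_equiv (Equiv.mulRight (⟨t, mem_C_bot B t⟩ : B.C ⊥))]
    refine finsum_congr fun z => ?_
    rw [← hcj]
    congr 1
    rw [← hti c]
    simp only [Equiv.coe_mulRight, Subgroup.coe_mul]
    group
  · intro χ hχ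
    have := Fintype.ofFinite G
    have h1 := lc_of hB (1 : V₀)
    have hi1 : B.i 1 = 1 := map_one _
    rw [hi1] at h1
    have hbe : B.b (⊥ ⊔ Subgroup.zpowers 1) = B.e := TB.H20.eq_e hB.ld.blk h1.blk h1.und
    have hCtop : B.C (⊥ ⊔ Subgroup.zpowers (1 : V₀)) = ⊤ := by
      rw [C_zp, hi1, eq_top_iff]
      exact fun x _ => TB.H20.mem_cu_one x
    have hbh : ∀ x, bh B (⊥ ⊔ Subgroup.zpowers (1 : V₀)) x = eh M B.e x := by
      intro x
      rw [bh_eq B _ _ hCtop, hbe, ext0_in (Subgroup.mem_top x)]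
      have hcl : IsCl (fun t : (⊤ : Subgroup G) => B.e t) := fun x y => hB.ld.blk.1.1 x y
      have h2 := T3.H62.eh_equiv (Subgroup.topEquiv : (⊤ : Subgroup G) ≃* G) hcl
        ⟨x, Subgroup.mem_top x⟩
      exact h2.symm
    have hCbot : B.C ⊥ = ⊤ := by
      rw [eq_top_iff]
      exact fun x _ => mem_C_bot B x
    have hfc : ∀ g, fc B ⊥ 1 g = eh M B.e g := by
      intro g
      unfold fc
      rw [hCtop, hi1]
      have h3 : ∀ z : B.C ⊥, bh B (⊥ ⊔ Subgroup.zpowers (1 : V₀))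
          ((1 : G)⁻¹ * ((z : G)⁻¹ * g * z)) = eh M B.e g := by
        intro z
        rw [hbh, inv_one, one_mul]
        have h4 := K9.H25.eh_cl M B.e g (z : G)⁻¹
        rw [inv_inv] at h4
        exact h4
      rw [finsum_congr h3]
      have := Fintype.ofFinite (B.C ⊥)
      rw [finsum_eq_sum_of_fintype, Finset.sum_const, Finset.card_univ, nsmul_eq_mul,
        ← Nat.card_eq_fintype_card, hCbot, ← mul_assoc, inv_mul_cancel₀, one_mul]
      exact_mod_cast Nat.card_pos.ne'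
    unfold cv
    rw [finsum_eq_sum_of_fintype]
    simp only [hfc]
    rw [K9.H25.eh_chv M B.e hχ.1, if_pos hχ, div_self (irr_one_ne hχ.1)]

end Pool.Agent.PP.SO.H25
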