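import Pool.Agent.ASO.StmtsL

/-!
# Squad ASO, row LC2: the case of scalars
-/

open scoped BigOperators

noncomputable section

namespace Pool.Agent.PP.SO.H25

open Pool.Agent.PP.SO

/-- the relation `F c + F d = f₀` for independent vectors -/
theorem lc2_pair (ltb : LTbStmt) {ℓ : ℕ} [Fact ℓ.Prime] {V Γ : Type} [AddCommGroup V]
    [Module (ZMod ℓ) V] [Fintype V] [Group Γ] [Fintype Γ] (ρ : Γ →* Module.End (ZMod ℓ) V)
    (F : V → ZMod ℓ) (f₀ : ZMod ℓ) (h : V → V →ₗ[ZMod ℓ] ZMod ℓ) (hF : LF ρ F f₀)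
    (hI : II ρ F f₀ h) (hs : ∀ e : Γ, ∃ a : ZMod ℓ, ρ e = a • 1) (c d : V) (hc : c ≠ 0)
    (hd : ∀ a : ZMod ℓ, d ≠ a • c) : F c + F d = f₀ := by
  choose a ha using hs
  have hd0 : d ≠ 0 := by
    intro h0
    exact hd 0 (by rw [h0, zero_smul])
  have haa : ∀ e : Γ, a e * a e⁻¹ = 1 := by
    intro e
    have h1 : ρ e * ρ e⁻¹ = 1 := by rw [← map_mul, mul_inv_cancel, map_one]
    have h2 : (ρ e * ρ e⁻¹) c = c := by rw [h1]; rfl
    rw [ha e, ha e⁻¹] at h2
    have h3 : (a e * a e⁻¹) • c = c := by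
      rw [mul_comm]
      simpa [smul_smul] using h2
    have h4 : (a e * a e⁻¹ - 1) • c = 0 := by rw [sub_smul, h3, one_smul, sub_self]
    rcases smul_eq_zero.1 h4 with h5 | h5
    · exact sub_eq_zero.1 h5
    · exact absurd h5 hc
  obtain ⟨-, -, hφ⟩ := ltb ℓ V hF.rk c d hc hd
  obtain ⟨φ, φd, φc⟩ := hφ 1 0
  obtain ⟨ψ, ψd, ψc⟩ := hφ 0 1
  have key := hI c d hc hd0 φ ψ
  have hterm : ∀ e : Γ, (f₀ - F c - F d) * φ (ρ e d) * ψ (ρ e⁻¹ c) +
      h c (ρ e d) * φ c * ψ (ρ e⁻¹ c) + h d (ρ e⁻¹ c) * φ (ρ e d) * ψ d = f₀ - F c - F d := by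
    intro e
    have e1 : φ (ρ e d) = a e := by
      rw [ha e]
      simp [φd]
    have e2 : ψ (ρ e⁻¹ c) = a e⁻¹ := by
      rw [ha e⁻¹]
      simp [ψc]
    rw [e1, e2, φc, ψd, mul_zero, mul_zero, zero_mul, add_zero, add_zero, mul_assoc, haa, mul_one]
  rw [Finset.sum_congr rfl fun e _ => hterm e, Finset.sum_const, Finset.card_univ,
    nsmul_eq_mul] at key
  rcases mul_eq_zero.1 key with h5 | h5
  · exact absurd h5 hF.cp
  · have : f₀ = F c + F d := by
      have := sub_eq_zero.1 (show f₀ - (F c + F d) = 0 by rw [← h5]; ring)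
      exact this
    exact this.symm

theorem lc2 (ltb : LTbStmt) (lsm : LSmStmt) : LC2Stmt := by
  intro ℓ _ V Γ _ _ _ _ _ ρ F f₀ h hF _ hI hs
  have pair := lc2_pair ltb ρ F f₀ h hF hI hs
  have one : ∀ c w : V, c ≠ 0 → (∀ a : ZMod ℓ, w ≠ a • c) → F c = f₀ := by
    intro c w hc hw
    have h1 := lsm ℓ V Γ ρ F f₀ hF c w hc hw
    have h2 : ∀ s : ZMod ℓ, F (w + s • c) = f₀ - F c := by
      intro s
      have h3 : ∀ a : ZMod ℓ, w + s • c ≠ a • c := by
        intro a h4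
        refine hw (a - s) ?_
        rw [sub_smul, ← h4]
        abel
      have h5 := pair c (w + s • c) hc h3
      rw [← h5]
      ring
    rw [Finset.sum_congr rfl fun s _ => h2 s, Finset.sum_const, Finset.card_univ, ZMod.card,
      nsmul_eq_mul, CharP.cast_eq_zero, zero_mul] at h1
    exact (sub_eq_zero.1 h1.symm).symm
  let b := Module.finBasisOfFinrankEq (ZMod ℓ) V hF.rk
  have hb0 : b 0 ≠ 0 := b.ne_zero 0
  have hb1 : b 1 ≠ 0 := b.ne_zero 1
  have h01 : ∀ a : ZMod ℓ, b 1 ≠ a • b 0 := by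
    intro a ha
    have := congrArg (fun v => b.repr v 1) ha
    simp at this
  have h10 : ∀ a : ZMod ℓ, b 0 ≠ a • b 1 := by
    intro a ha
    have := congrArg (fun v => b.repr v 0) ha
    simp at this
  have e0 := one (b 0) (b 1) hb0 h01
  have e1 := one (b 1) (b 0) hb1 h10
  have e2 := pair (b 0) (b 1) hb0 h01
  rw [e0, e1] at e2
  exact add_eq_left.1 e2

end Pool.Agent.PP.SO.H25
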