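import Pool.Agent.ASO.Stmts4

/-!
# Squad ASO, row M12
-/

open scoped BigOperators

noncomputable section

namespace Pool.Agent.PP.SO.H25

open Pool.Agent.Helper51_AWC Pool.Agent.Helper79_WRA Pool.Agent.PP Pool.Agent.PP.KF
open Pool.Agent.PP.K9 Pool.Agent.PP.K9.H97 Pool.Agent.PP.H75 Pool.Agent.PP.T3
open Pool.Agent.PP.SO

attribute [local instance] Ideal.Quotient.field

theorem cnt (mbi : MbiStmt) {A X : Type} [Finite A] [Finite X] (F : Set A → ℚ) (T₀ : Set A)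
    (W : Set X) (τ : X → Set A) (v : ℚ) (hτ : ∀ w ∈ W, τ w ⊆ T₀) (hv : ∀ w ∈ W, F (τ w) = v) :
    ∑ᶠ L ∈ {L : Set A | L ⊆ T₀}, (mob F L : ℂ) * (({w | w ∈ W ∧ L ⊆ τ w} : Set X).ncard : ℂ) =
      v * (W.ncard : ℂ) := by
  classical
  have := Fintype.ofFinite A
  have := Fintype.ofFinite X
  have hc : ∀ L : Set A, (({w | w ∈ W ∧ L ⊆ τ w} : Set X).ncard : ℂ) =
      ∑ w ∈ W.toFinset, if L ⊆ τ w then (1 : ℂ) else 0 := by
    intro L
    rw [Finset.sum_ite, Finset.sum_const_zero, add_zero, Finset.sum_const, nsmul_eq_mul, mul_one]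
    congr 1
    rw [Set.ncard_eq_toFinset_card']
    congr 1
    ext w
    simp
  rw [finsum_mem_eq_toFinset_sum]
  simp only [hc, Finset.mul_sum]
  rw [Finset.sum_comm]
  have h1 : ∀ w ∈ W.toFinset, ∑ L ∈ ({L : Set A | L ⊆ T₀} : Set (Set A)).toFinset,
      (mob F L : ℂ) * (if L ⊆ τ w then (1 : ℂ) else 0) = (v : ℂ) := by
    intro w hw
    rw [Set.mem_toFinset] at hw
    have h2 := (mbi A F).1 (τ w)
    rw [finsum_mem_eq_toFinset_sum] at h2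
    rw [hv w hw] at h2
    rw [← h2]
    push_cast
    simp only [mul_ite, mul_one, mul_zero]
    rw [← Finset.sum_filter]
    apply Finset.sum_congr _ (fun _ _ => rfl)
    ext L
    simp only [Finset.mem_filter, Set.mem_toFinset, Set.mem_setOf_eq]
    exact ⟨fun h => h.2, fun h => ⟨h.trans (hτ w hw), h⟩⟩
  rw [Finset.sum_congr rfl h1, Finset.sum_const, nsmul_eq_mul, Set.ncard_eq_toFinset_card',
    mul_comm]

theorem m12 (mbi : MbiStmt) (wze : WzeStmt) : M12Stmt := by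
  intro ℓ _ M _ hM V₀ G _ _ _ _ E₀ hV B hB n m κ κ₂ hκ F v hn hF
  classical
  have := Fintype.ofFinite G
  have hW := (wze ℓ M hM V₀ G E₀ hV B hB).2.1 κ hκ
  obtain ⟨τ₀, hτ₀⟩ : ∃ τ₀ : Set (SS n V₀), τ₀ =
      {s | s.2.2.1 = κ⁻¹ ^ (s.2.1 : ℕ) ∧ s.2.2.2 = κ₂⁻¹ ^ (s.2.1 : ℕ)} := ⟨_, rfl⟩
  have hset : {L : Set (SS n V₀) | ∀ s ∈ L, s.2.2.1 = κ⁻¹ ^ (s.2.1 : ℕ) ∧
      s.2.2.2 = κ₂⁻¹ ^ (s.2.1 : ℕ)} = {L : Set (SS n V₀) | L ⊆ τ₀} := by
    rw [hτ₀]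
    rfl
  rw [hset]
  -- the value of `HK`
  obtain ⟨N, hN⟩ : ∃ N : G → Set (SS n V₀) → ℂ, N = fun t L =>
      (({w : G × G | w ∈ {w : G × G | kap w.1 w.2 = B.i κ * t} ∧
        L ⊆ {s | s ∈ τ₀ ∧ (w.1 ^ m) ^ (s.1 : ℕ) = 1}} : Set (G × G)).ncard : ℂ) := ⟨_, rfl⟩
  have hHK : ∀ L : Set (SS n V₀), L ⊆ τ₀ → HK B m κ L =
      (Nat.card (B.C (Subgroup.zpowers κ)) : ℂ)⁻¹ *
        ∑ t : G, bh B (Subgroup.zpowers κ) t * N t L := by
    intro L hL
    have hp : ∀ s ∈ L, κ ^ (s.2.1 : ℕ) * s.2.2.1 = 1 := by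
      intro s hs
      have h1 := hL hs
      rw [hτ₀] at h1
      rw [h1.1, inv_pow, mul_inv_cancel]
    have haL : aL κ L = ⊥ := by
      unfold aL
      rw [Subgroup.closure_eq_bot_iff]
      rintro a ⟨s, hs, rfl⟩
      rw [Set.mem_singleton_iff]
      exact hp s hs
    unfold HK
    rw [haL, bot_sup_eq, finsum_eq_sum_of_fintype]
    congr 1
    refine Finset.sum_congr rfl fun t _ => ?_
    rw [hN]
    congr 3
    ext w
    simp only [Set.mem_setOf_eq]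
    refine and_congr_right fun _ => ?_
    constructor
    · intro h s hs
      refine ⟨hL hs, ?_⟩
      have h2 := (h s hs).2
      rw [hp s hs, map_one, mul_one, inv_mul_cancel, one_mul] at h2
      exact h2.symm
    · intro h s hs
      have h2 : (w.1 ^ m) ^ (s.1 : ℕ) = 1 := (h hs).2
      rw [hp s hs, map_one, h2]
      simp
  have hsum : ∀ t : G, ∑ᶠ L ∈ {L : Set (SS n V₀) | L ⊆ τ₀}, (mob F L : ℂ) * N t L =
      v * (({w : G × G | kap w.1 w.2 = B.i κ * t} : Set (G × G)).ncard : ℂ) := by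
    intro t
    rw [hN]
    apply cnt mbi F τ₀ {w : G × G | kap w.1 w.2 = B.i κ * t}
      (fun w => {s | s ∈ τ₀ ∧ (w.1 ^ m) ^ (s.1 : ℕ) = 1}) v
    · intro w _ s hs
      exact hs.1
    · intro w _
      have h1 := hF {i : Fin n | (w.1 ^ m) ^ (i : ℕ) = 1} ⟨⟨0, hn⟩, by
        simp, rfl⟩
      rw [← h1]
      congr 1
      ext s
      rw [hτ₀]
      simp only [Set.mem_setOf_eq]
      exact ⟨fun h => ⟨h.2, h.1.1, h.1.2⟩, fun h => ⟨⟨h.2.1, h.2.2⟩, h.1⟩⟩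
  have hfin : ({L : Set (SS n V₀) | L ⊆ τ₀} : Set (Set (SS n V₀))).Finite := Set.toFinite _
  have e1 : ∑ᶠ L ∈ {L : Set (SS n V₀) | L ⊆ τ₀}, (mob F L : ℂ) * HK B m κ L =
      (Nat.card (B.C (Subgroup.zpowers κ)) : ℂ)⁻¹ *
        ∑ t : G, bh B (Subgroup.zpowers κ) t *
          ∑ᶠ L ∈ {L : Set (SS n V₀) | L ⊆ τ₀}, (mob F L : ℂ) * N t L := by
    simp only [finsum_mem_eq_finite_toFinset_sum _ hfin]
    simp only [Finset.mul_sum]
    rw [Finset.sum_comm]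
    have h3 : ∀ L ∈ hfin.toFinset, (mob F L : ℂ) * HK B m κ L = ∑ t : G,
        (Nat.card (B.C (Subgroup.zpowers κ)) : ℂ)⁻¹ * (bh B (Subgroup.zpowers κ) t *
          ((mob F L : ℂ) * N t L)) := by
      intro L hL
      rw [Set.Finite.mem_toFinset] at hL
      rw [hHK L hL, Finset.mul_sum, Finset.mul_sum]
      exact Finset.sum_congr rfl fun t _ => by ring
    exact Finset.sum_congr rfl h3
  rw [e1, ← hW, finsum_eq_sum_of_fintype]
  simp only [hsum, Finset.mul_sum]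
  exact Finset.sum_congr rfl fun t _ => by ring

end Pool.Agent.PP.SO.H25
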